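import Pool.Agent.Helper857.W8

set_option autoImplicit false

namespace Pool.Agent.Results.MP_5bfa61_nt.QTwo

open Finset Pool.Agent.Helper857.Pad Pool.Agent.Helper857.W

/-- For every odd prime `p` and every `a ≥ 1`, the number
`T_{p,a} = (1/p^a) * sum_{k < p^a} (10k+3)/8^k * C(2k,k)^2 * C(3k,k)` is congruent to
`3 + (49/8) p^3 B_{p-3}` modulo `p^4`: the difference divided by `p^4` has denominator prime to `p`. -/
theorem result : ∀ (p a : ℕ), p.Prime → p ≠ 2 → 1 ≤ a →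
    ¬ p ∣ (((1 / (p:ℚ)^a * ∑ k ∈ Finset.range (p^a),
        (10 * (k:ℚ) + 3) / 8^k * ((2*k).choose k : ℚ)^2 * ((3*k).choose k : ℚ))
      - (3 + 49/8 * (p:ℚ)^3 * bernoulli (p-3))) / (p:ℚ)^4).den := by
  intro p a hpp hp2 ha
  have hp : Fact p.Prime := ⟨hpp⟩
  have hodd : p % 2 = 1 := by
    rcases hp.out.eq_two_or_odd with h | h
    · exact absurd h hp2
    · exact h
  have hpa : (p^a) % 2 = 1 := by
    have : Odd (p^a) := (Nat.odd_iff.mpr hodd).pow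
    exact Nat.odd_iff.mp this
  obtain ⟨R, hR⟩ : ∃ R, 2*R+1 = p^a := ⟨p^a/2, by omega⟩
  have hp0 : (p:ℚ) ≠ 0 := by exact_mod_cast hp.out.ne_zero
  have hT : 1 / (p:ℚ)^a * ∑ k ∈ Finset.range (p^a),
      (10 * (k:ℚ) + 3) / 8^k * ((2*k).choose k : ℚ)^2 * ((3*k).choose k : ℚ) = TT R := by
    unfold TT
    rw [hR]
    push_cast
    rw [one_div, inv_mul_eq_div]
    congr 1
    apply sum_congr rfl
    intro k _
    unfold t
    ring
  rw [hT]
  have m (n : ℕ) : ((n:ℕ):ℚ) ∈ Zp p := nat_mem n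
  have n2 : ¬ p ∣ 2 := by
    intro h
    exact hp2 ((Nat.prime_dvd_prime_iff_eq hp.out Nat.prime_two).mp h)
  have n8 : ¬ p ∣ 8 := by
    intro h
    exact n2 (hp.out.dvd_of_dvd_pow (show p ∣ 2^3 by simpa using h))
  have cr := classred (p := p) ha hR hp2
  suffices hI : I p 4 (TT R - (3 + 49/8 * (p:ℚ)^3 * bernoulli (p-3))) by
    obtain ⟨y, hy, e⟩ := hI
    rw [e, mul_div_cancel_left₀ y (pow_ne_zero 4 hp0)]
    exact hy
  rcases Nat.lt_or_ge p 5 with h5 | h5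
  · have h3 : p = 3 := by
      have := hp.out.two_le
      omega
    have f := fin3 (p := p) ha hR h3
    apply I.cancel n8
    have hb : bernoulli (p-3) = 1 := by rw [h3]; simp
    have hs : (p:ℚ)^3 * ∑ j ∈ Icc 1 ((p-1)/2), 1/(j:ℚ)^3 = (p:ℚ)^3 := by rw [h3]; norm_num
    rw [hs] at cr
    rw [hb]
    have e : ((8:ℕ):ℚ) * (TT R - (3 + 49/8 * (p:ℚ)^3 * 1)) =
        (8 * (TT R - 3) - 7 * HH ((2*R+1:ℕ):ℚ) R) + 7 * (HH ((2*R+1:ℕ):ℚ) R - (p:ℚ)^3) - (p:ℚ)^4 * 14 := by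
      rw [h3]; push_cast; ring
    rw [e]
    exact (f.add (I.mem_mul (by exact_mod_cast m 7) cr)).sub ((I.p_pow 4).mul_mem (by exact_mod_cast m 14))
  · have f := fin5 (p := p) ha hR h5
    have h3 := harm3 (p := p) h5
    have hodd2 : ¬ p ∣ 16 := by
      intro h
      exact n2 (hp.out.dvd_of_dvd_pow (show p ∣ 2^4 by simpa using h))
    apply I.cancel hodd2
    have e : ((16:ℕ):ℚ) * (TT R - (3 + 49/8 * (p:ℚ)^3 * bernoulli (p-3))) =
        (16 * (TT R - 3) + 49 * HH ((2*R+1:ℕ):ℚ) R) -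
        49 * (HH ((2*R+1:ℕ):ℚ) R - (p:ℚ)^3 * ∑ j ∈ Icc 1 ((p-1)/2), 1/(j:ℚ)^3) -
        49 * ((p:ℚ)^3 * (∑ j ∈ Icc 1 ((p-1)/2), 1/(j:ℚ)^3 + 2 * bernoulli (p-3))) := by
      push_cast; ring
    rw [e]
    refine (f.sub (I.mem_mul (by exact_mod_cast m 49) cr)).sub (I.mem_mul (by exact_mod_cast m 49) ?_)
    exact (I.p_pow 3).mul h3

end Pool.Agent.Results.MP_5bfa61_nt.QTwo
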